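import Pool.Agent.TH250.Z3.Stm

/-!
# Degrees of the basis and enumeration of the positions (`G4a`, `G4d`), second design
-/

set_option autoImplicit false

open Polynomial Pool.Agent.H337R2 Pool.Agent.TH250.Z3

namespace Pool.Agent.TH75.Z3

lemma Lin_monic (n : ℕ) : (Lin n).Monic := monic_X_add_C _

lemma Lin_deg (n : ℕ) : (Lin n).natDegree = 1 := natDegree_X_add_C _

lemma QL_aux (n i : ℕ) : (QL n i).Monic ∧ (QL n i).natDegree = 2 := by
  have h1 : (Lin n ^ 2).Monic := (Lin_monic n).pow 2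
  have h2 : (Lin n ^ 2).natDegree = 2 := by rw [(Lin_monic n).natDegree_pow, Lin_deg]
  have h3 : (C ((i : ℚ) / 100000 * (120 * (n / 120 : ℕ)) ^ 2) : ℚ[X]).natDegree <
      (Lin n ^ 2).natDegree := by
    rw [h2, natDegree_C]; norm_num
  have e : QL n i = Lin n ^ 2 + C ((i : ℚ) / 100000 * (120 * (n / 120 : ℕ)) ^ 2) := rfl
  rw [e]
  refine ⟨h1.add_of_left (degree_lt_degree h3), ?_⟩
  rw [natDegree_add_eq_left_of_natDegree_lt h3, h2]

lemma QP_aux (n i : ℕ) : (QP n i).Monic ∧ (QP n i).natDegree = 1 :=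
  ⟨monic_X_add_C _, natDegree_X_add_C _⟩

lemma list_aux (f : ℕ → ℚ[X]) (d : ℕ) (hf : ∀ a, (f a).Monic ∧ (f a).natDegree = d) :
    ∀ l : List ℕ, (l.map f).prod.Monic ∧ (l.map f).prod.natDegree = d * l.length
  | [] => by
    rw [List.map_nil, List.prod_nil]
    exact ⟨monic_one, by simp⟩
  | a :: l => by
    have ih := list_aux f d hf l
    rw [List.map_cons, List.prod_cons]
    refine ⟨(hf a).1.mul ih.1, ?_⟩
    rw [(hf a).1.natDegree_mul ih.1, (hf a).2, ih.2, List.length_cons]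
    ring

lemma len_aux {b : ℕ} (hb : b ≤ 9) : 2 * (LT b).length + (PT b).length = 2 * ho b := by
  interval_cases b <;> rfl

lemma SB_aux (n : ℕ) {b : ℕ} (hb : b ≤ 9) : (SB n b).Monic ∧ (SB n b).natDegree = 2 * ho b := by
  have h1 := list_aux (QL n) 2 (QL_aux n) (LT b)
  have h2 := list_aux (QP n) 1 (QP_aux n) (PT b)
  have e : SB n b = ((LT b).map (QL n)).prod * ((PT b).map (QP n)).prod := rfl
  rw [e]
  refine ⟨h1.1.mul h2.1, ?_⟩
  rw [h1.1.natDegree_mul h2.1, h1.2, h2.2, one_mul, len_aux hb]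

lemma ho_mono {b : ℕ} (hb : b < 9) : ho b ≤ ho (b + 1) := by
  interval_cases b <;> decide

theorem G4a : StG4a := by
  intro n b m j hp
  have e : PA n b m j = SB n b ^ (n / 120 - m) * SB n (b + 1) ^ m * Lin n ^ j := rfl
  have m4 : (Lin n ^ j).Monic := (Lin_monic n).pow _
  rcases hp with ⟨hb, hm, hj⟩ | ⟨hb, hm, hj⟩
  · have h1 := SB_aux n hb.le
    have h2 := SB_aux n (b := b + 1) (by omega)
    have m2 : (SB n b ^ (n / 120 - m)).Monic := h1.1.pow _
    have m3 : (SB n (b + 1) ^ m).Monic := h2.1.pow _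
    rw [e]
    refine ⟨(m2.mul m3).mul m4, ?_⟩
    rw [(m2.mul m3).natDegree_mul m4, m2.natDegree_mul m3, h1.1.natDegree_pow, h2.1.natDegree_pow,
      (Lin_monic n).natDegree_pow, h1.2, h2.2, Lin_deg]
    unfold dg
    obtain ⟨c, hc⟩ := Nat.exists_eq_add_of_le (ho_mono hb)
    obtain ⟨k, hk⟩ := Nat.exists_eq_add_of_le hm.le
    rw [hc, hk, Nat.add_sub_cancel_left, Nat.add_sub_cancel_left]
    ring
  · subst hb
    subst hm
    have h1 := SB_aux n (b := 9) le_rfl
    have m2 : (SB n 9 ^ (n / 120 - 0)).Monic := h1.1.pow _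
    rw [e]
    rw [pow_zero, mul_one]
    refine ⟨m2.mul m4, ?_⟩
    rw [m2.natDegree_mul m4, h1.1.natDegree_pow, (Lin_monic n).natDegree_pow, h1.2, Lin_deg]
    unfold dg
    rw [Nat.sub_zero]
    ring

theorem G4d : StG4d := by
  intro n i hn hi
  have hN : 1 ≤ n / 120 := by omega
  unfold loc Pos dg
  split_ifs with h0 h1 h2 h3 h4 h5 h6 h7 h8
  · simp only [ho]
    omega
  · simp only [ho]
    omega
  · simp only [ho]
    omega
  · simp only [ho]
    omega
  · simp only [ho]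
    omega
  · simp only [ho]
    omega
  · simp only [ho]
    omega
  · simp only [ho]
    omega
  · simp only [ho]
    omega
  · refine ⟨Or.inr ⟨rfl, rfl, ?_⟩, ?_⟩
    · show i - 240 * (n / 120) < 2 * n - 240 * (n / 120)
      omega
    · show 2 * 120 * (n / 120) + 2 * (120 - 120) * 0 + (i - 240 * (n / 120)) = i
      omega

end Pool.Agent.TH75.Z3
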